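import Pool.Agent.Lib.MP_3e25b1_lc.Const

set_option autoImplicit false

namespace Pool.Agent.Results.MP_3e25b1_lc.ConstFunctorFO

open CategoryTheory Pool.Agent.Lib.MP_3e25b1_lc

/-- The functor `X ↦ (X, ∃_δ ⊤)` from sets to the `D_st`-topos does not preserve first-order
logic: for the two-element set `M = {0, 1}` (a structure for the empty language), the formula
`∀ z, z = x ∨ z = y` holds in `M` at `x = 0`, `y = 1`, but it does not hold at `(0, 1)` in the
image of `M` in the internal (Kripke-Joyal) logic of the `D_st`-topos. -/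
theorem result [FirstOrder.Language.empty.Structure Bool] (a : Fin 2 → Bool)
    (h0 : a 0 = false) (h1 : a 1 = true) :
    twoFml.Sat Bool a ∧
      ¬ Forces constFunctor Bool twoFml (constFunctor.map (↾fun _ : PUnit.{1} => a)) :=
  ⟨twoFml_sat a h0 h1, twoFml_not_forced a h0 h1⟩

end Pool.Agent.Results.MP_3e25b1_lc.ConstFunctorFO
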