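import Pool.Agent.Lib.MP_3e25b1_lc.Const

set_option autoImplicit false

namespace Pool.Agent.Results.MP_3e25b1_lc.NotNNO

open CategoryTheory Pool.Agent.Lib.MP_3e25b1_lc

/-- `∇ℕ` is not a natural numbers object of the `D_st`-topos, whatever zero and successor it
is given. More generally no object of the `D_st`-topos whose existence predicate `E(x)`
(that is, `x = x`) is valid is a natural numbers object; this applies to `∇ℕ`, and also to
the object `(ℕ, ∃_δ ⊤)`. -/
theorem result :
    (∀ (X : Dst), Ent (fun _ : X.carrier => Sig.top) (fun x => X.eq x x) →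
      ∀ {T : Dst} (z : T ⟶ X) (s : X ⟶ X), ¬ IsNNO z s) ∧
    (∀ {T : Dst} (z : T ⟶ nabla.obj ℕ) (s : nabla.obj ℕ ⟶ nabla.obj ℕ), ¬ IsNNO z s) ∧
    (∀ {T : Dst} (z : T ⟶ constFunctor.obj ℕ) (s : constFunctor.obj ℕ ⟶ constFunctor.obj ℕ),
      ¬ IsNNO z s) ∧
    Nonempty (Limits.IsTerminal (nabla.obj PUnit)) :=
  ⟨fun X hX _ z s => not_isNNO X hX z s, fun z s => nabla_not_isNNO z s,
    fun z s => const_not_isNNO z s, nabla_unit_terminal⟩

end Pool.Agent.Results.MP_3e25b1_lc.NotNNO
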