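import Pool.Agent.Lib.MP_3e25b1_lc.Main
import Pool.Agent.Lib.MP_3e25b1_lc.Products

set_option autoImplicit false

namespace Pool.Agent.Results.MP_3e25b1_lc.PreservesFO

open CategoryTheory Pool.Agent.Lib.MP_3e25b1_lc

universe u v

/-- The functor `∇ : Sets → Dst` (equality predicate true on the diagonal and false off it)
preserves finite products, and it preserves and reflects first-order logic: for every
first-order structure `M`, formula `φ` and tuple `a` in `M`, `M ⊨ φ(a)` if and only if
`φ(∇a)` holds in `∇M` in the internal (Kripke-Joyal) logic of the `D_st`-topos. -/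
theorem result :
    Limits.PreservesFiniteProducts nabla ∧
    ∀ {L : FirstOrder.Language.{u, v}} (M : Type) [L.Structure M] {n : ℕ} (φ : Fml L n)
      (a : Fin n → M),
      φ.Sat M a ↔ Forces nabla M φ (nabla.map (↾fun _ : PUnit.{1} => a)) :=
  ⟨nabla_preservesFiniteProducts, fun M _ _ φ a => preserves_and_reflects M φ a⟩

end Pool.Agent.Results.MP_3e25b1_lc.PreservesFO
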